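import Mathlib
import Pool.Agent.Helper17.TransDefs
import Pool.Agent.Helper17.TransFinal

set_option autoImplicit false

/-!
# Almost no transversal matroid is Tutte unique

The labelled transversal matroids on `{1, …, n}` and the isomorphism classes of transversal
matroids on an `n`-element ground set are both considered.
-/

namespace Pool.Agent.Results.MP_6552bf_co.TransversalAlmostNone

open Pool.Agent.Helper17.Trans Filter Topology

lemma nonempty_labTrans (n : ℕ) : Nonempty (LabTrans n) := by
  have hg : Good (n := n) 0 ∅ := by
    intro T hT h2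
    have h0 : T.card = 0 := by
      rw [Finset.card_eq_zero]; exact Finset.subset_empty.1 hT
    omega
  obtain ⟨M, hE, hT, -⟩ := hg.exists_matroid (Nat.zero_le n) (Finset.notMem_empty _)
    (by simp)
  exact ⟨⟨M, hE, hT⟩⟩

/-- Almost no transversal matroid is Tutte unique: among the labelled transversal matroids on
`n` elements, and also among the isomorphism classes of transversal matroids on `n` elements, the
proportion of the Tutte unique ones tends to `0`. (The two sets which are counted are finite and
nonempty.) -/
theorem result :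
    (∀ n : ℕ, Finite (LabTrans n) ∧ Nonempty (LabTrans n)) ∧
    Tendsto (fun n : ℕ => (Nat.card {M : LabTrans n // TutteUnique M.1} : ℝ) /
      (Nat.card (LabTrans n) : ℝ)) atTop (𝓝 0) ∧
    Tendsto (fun n : ℕ => (Nat.card {c : Quotient (isoSetoid n) //
        ∃ M : LabTrans n, Quotient.mk (isoSetoid n) M = c ∧ TutteUnique M.1} : ℝ) /
      (Nat.card (Quotient (isoSetoid n)) : ℝ)) atTop (𝓝 0) := by
  refine ⟨fun n => ⟨inferInstance, nonempty_labTrans n⟩, ?_, ?_⟩
  · rw [Metric.tendsto_atTop]
    intro ε hε
    obtain ⟨N, hN⟩ := eventually_atTop.1 (labelled_and_classes (ε / 2) (by positivity))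
    refine ⟨N, fun n hn => ?_⟩
    have h1 := (hN n hn).1
    have hne := nonempty_labTrans n
    have hpos : (0 : ℝ) < Nat.card (LabTrans n) := by exact_mod_cast Nat.card_pos
    rw [Real.dist_eq, sub_zero, abs_of_nonneg (by positivity), div_lt_iff₀ hpos]
    nlinarith
  · rw [Metric.tendsto_atTop]
    intro ε hε
    obtain ⟨N, hN⟩ := eventually_atTop.1 (labelled_and_classes (ε / 2) (by positivity))
    refine ⟨N, fun n hn => ?_⟩
    have h1 := (hN n hn).2
    have hne : Nonempty (Quotient (isoSetoid n)) :=
      ⟨Quotient.mk _ (nonempty_labTrans n).some⟩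
    have hpos : (0 : ℝ) < Nat.card (Quotient (isoSetoid n)) := by exact_mod_cast Nat.card_pos
    rw [Real.dist_eq, sub_zero, abs_of_nonneg (by positivity), div_lt_iff₀ hpos]
    nlinarith

end Pool.Agent.Results.MP_6552bf_co.TransversalAlmostNone
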